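import Mathlib

set_option autoImplicit false

namespace Pool.Agent.Results.MP_a8cb64_co.NearDiagonal

open Finset

/-- `T` is a transversal of the family `S`: it meets every edge of `S`. -/
def IsTransversal {V : Type} [DecidableEq V] (S : Finset (Finset V)) (T : Finset V) : Prop :=
  ∀ e ∈ S, (e ∩ T).Nonempty

/-- `Good r k s f`: whenever `H` is an `r`-graph on a finite vertex set such that every subfamily
of at most `k` edges has a transversal of at most `s` vertices, then `τ(H) ≤ f`. -/
def Good (r k s f : ℕ) : Prop :=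
  ∀ (V : Type) [Fintype V] [DecidableEq V] (H : Finset (Finset V)), (∀ e ∈ H, e.card = r) →
    (∀ S ⊆ H, S.card ≤ k → ∃ T : Finset V, T.card ≤ s ∧ IsTransversal S T) →
    ∃ T : Finset V, T.card ≤ f ∧ IsTransversal H T

lemma good_base (r : ℕ) : Good r 1 0 0 := by
  intro V _ _ H _ hk
  refine ⟨∅, by simp, ?_⟩
  intro e he
  obtain ⟨T, hT, hT2⟩ := hk {e} (by simpa using he) (by simp)
  have h0 : T = ∅ := by
    apply card_eq_zero.1; omega
  have := hT2 e (by simp)
  rw [h0] at this
  exact this

lemma good_step (r k s f : ℕ) (h : Good r k s f) : Good r (k + 1) (s + 1) (r + f) := by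
  classical
  intro V _ _ H hr hk
  rcases H.eq_empty_or_nonempty with rfl | ⟨e, he⟩
  · exact ⟨∅, by simp, by intro e he; simp at he⟩
  · obtain ⟨T₁, hT₁, hT₂⟩ := h V (H.filter (fun e' => Disjoint e e'))
      (fun e' he' => hr e' (mem_filter.1 he').1) (by
        intro S hS hSk
        obtain ⟨T, hT, hT2⟩ := hk (insert e S) (by
          intro x hx
          rw [mem_insert] at hx
          rcases hx with rfl | hx
          · exact he
          · exact (mem_filter.1 (hS hx)).1) (by
          have := card_insert_le e S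
          omega)
        refine ⟨T \ e, ?_, ?_⟩
        · obtain ⟨x, hx⟩ := hT2 e (mem_insert_self _ _)
          rw [mem_inter] at hx
          have h1 : T \ e ⊂ T := by
            rw [ssubset_iff_of_subset sdiff_subset]
            exact ⟨x, hx.2, fun h => (mem_sdiff.1 h).2 hx.1⟩
          have h2 := card_lt_card h1
          omega
        · intro e' he'
          obtain ⟨x, hx⟩ := hT2 e' (mem_insert_of_mem he')
          rw [mem_inter] at hx
          have hd := (mem_filter.1 (hS he')).2
          refine ⟨x, mem_inter.2 ⟨hx.1, mem_sdiff.2 ⟨hx.2, ?_⟩⟩⟩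
          exact fun hxe => (disjoint_left.1 hd hxe) hx.1)
    refine ⟨e ∪ T₁, ?_, ?_⟩
    · have := card_union_le e T₁
      have h2 := hr e he
      omega
    · intro e' he'
      by_cases hd : Disjoint e e'
      · obtain ⟨x, hx⟩ := hT₂ e' (mem_filter.2 ⟨he', hd⟩)
        rw [mem_inter] at hx
        exact ⟨x, mem_inter.2 ⟨hx.1, mem_union_right _ hx.2⟩⟩
      · rw [not_disjoint_iff] at hd
        obtain ⟨x, hx, hx'⟩ := hd
        exact ⟨x, mem_inter.2 ⟨hx', mem_union_left _ hx⟩⟩

lemma good_three (r : ℕ) : Good r 3 1 ((r + 1) / 2) := by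
  classical
  intro V _ _ H hr hk
  rcases H.eq_empty_or_nonempty with rfl | hne
  · exact ⟨∅, by simp, by intro e he; simp at he⟩
  · have hcommon : ∀ A ∈ H, ∀ B ∈ H, ∀ C ∈ H, ∃ x, x ∈ A ∧ x ∈ B ∧ x ∈ C := by
      intro A hA B hB C hC
      obtain ⟨T, hT, hT2⟩ := hk {A, B, C} (by
        intro x hx
        simp only [mem_insert, mem_singleton] at hx
        rcases hx with rfl | rfl | rfl <;> assumption) (card_le_three)
      obtain ⟨x, hx⟩ := hT2 A (by simp)
      obtain ⟨y, hy⟩ := hT2 B (by simp)
      obtain ⟨z, hz⟩ := hT2 C (by simp)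
      rw [mem_inter] at hx hy hz
      have h1 : x = y := card_le_one.1 hT x hx.2 y hy.2
      have h2 : x = z := card_le_one.1 hT x hx.2 z hz.2
      exact ⟨x, hx.1, h1 ▸ hy.1, h2 ▸ hz.1⟩
    obtain ⟨⟨A, B⟩, hAB, hmin⟩ := exists_min_image (H ×ˢ H) (fun p => (p.1 ∩ p.2).card)
      (hne.product hne)
    rw [mem_product] at hAB
    simp only at hAB hmin
    set t := (A ∩ B).card with ht
    have htr : t ≤ r := by
      rw [ht, ← hr A hAB.1]; exact card_le_card inter_subset_left
    by_cases hcase : t ≤ (r + 1) / 2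
    · refine ⟨A ∩ B, hcase, ?_⟩
      intro e he
      obtain ⟨x, h1, h2, h3⟩ := hcommon A hAB.1 B hAB.2 e he
      exact ⟨x, mem_inter.2 ⟨h3, mem_inter.2 ⟨h1, h2⟩⟩⟩
    · push Not at hcase
      obtain ⟨T, hTA, hT⟩ := exists_subset_card_eq (s := A) (n := r - t + 1) (by
        rw [hr A hAB.1]; omega)
      refine ⟨T, by omega, ?_⟩
      intro e he
      have h1 : t ≤ (A ∩ e).card := hmin (A, e) (mem_product.2 ⟨hAB.1, he⟩)
      by_contra hemp
      rw [not_nonempty_iff_eq_empty] at hemp
      have h2 : Disjoint T (A ∩ e) := by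
        rw [disjoint_left]
        intro x hx hx2
        rw [mem_inter] at hx2
        have : x ∈ e ∩ T := mem_inter.2 ⟨hx2.2, hx⟩
        rw [hemp] at this
        simp at this
      have h3 : (T ∪ (A ∩ e)).card ≤ A.card :=
        card_le_card (union_subset hTA inter_subset_left)
      rw [card_union_of_disjoint h2, hr A hAB.1] at h3
      omega

lemma good_one (r s : ℕ) : Good r (s + 1) s (r * s) := by
  induction s with
  | zero => exact good_base r
  | succ s ih =>
    have := good_step _ _ _ _ ih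
    have h2 : r * (s + 1) = r + r * s := by ring
    rw [h2]; exact this

lemma good_two (r s : ℕ) : Good r (s + 1 + 2) (s + 1) (s * r + (r + 1) / 2) := by
  induction s with
  | zero => simpa using good_three r
  | succ s ih =>
    have := good_step _ _ _ _ ih
    have h2 : (s + 1) * r + (r + 1) / 2 = r + (s * r + (r + 1) / 2) := by ring
    rw [h2]; exact this

/-! ### Lower bounds: complete `r`-graphs -/

lemma sel {V : Type} [DecidableEq V] (S : Finset (Finset V)) (h : ∀ e ∈ S, e.Nonempty) :
    ∃ T : Finset V, T.card ≤ S.card ∧ IsTransversal S T := by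
  classical
  choose g hg using h
  refine ⟨S.attach.image (fun e => g e.1 e.2), ?_, ?_⟩
  · exact card_image_le.trans (by rw [card_attach])
  · intro e he
    refine ⟨g e he, mem_inter.2 ⟨hg e he, ?_⟩⟩
    rw [mem_image]
    exact ⟨⟨e, he⟩, mem_attach _ _, rfl⟩

lemma not_good_of {r k s f N : ℕ} (hr : 1 ≤ r) (hf : f + r ≤ N)
    (h : ∀ S : Finset (Finset (Fin N)), (∀ e ∈ S, e.card = r) → S.card ≤ k →
      ∃ T : Finset (Fin N), T.card ≤ s ∧ IsTransversal S T) : ¬ Good r k s f := by
  classical
  intro hg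
  obtain ⟨T, hT, hT2⟩ := hg (Fin N) (univ.filter (fun e => e.card = r))
    (fun e he => (mem_filter.1 he).2)
    (fun S hS hSk => h S (fun e he => (mem_filter.1 (hS he)).2) hSk)
  have h1 : r ≤ (univ \ T : Finset (Fin N)).card := by
    rw [card_sdiff_of_subset (subset_univ T), card_univ, Fintype.card_fin]
    omega
  obtain ⟨e, he, he2⟩ := exists_subset_card_eq h1
  obtain ⟨x, hx⟩ := hT2 e (mem_filter.2 ⟨mem_univ _, he2⟩)
  rw [mem_inter] at hx
  exact (mem_sdiff.1 (he hx.1)).2 hx.2

/-- combine a transversal of a subfamily with one point from each remaining edge -/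
lemma extend {V : Type} [DecidableEq V] (S S₁ : Finset (Finset V)) (h : ∀ e ∈ S, e.Nonempty)
    (T₁ : Finset V) (h₁ : ∀ e ∈ S₁, (e ∩ T₁).Nonempty) (n : ℕ)
    (hn : T₁.card + (S \ S₁).card ≤ n) : ∃ T : Finset V, T.card ≤ n ∧ IsTransversal S T := by
  obtain ⟨T₂, hT₂, hT₂'⟩ := sel (S \ S₁) (fun e he => h e (mem_sdiff.1 he).1)
  refine ⟨T₁ ∪ T₂, ?_, ?_⟩
  · have := card_union_le T₁ T₂; omega
  · intro e he
    by_cases he1 : e ∈ S₁
    · obtain ⟨x, hx⟩ := h₁ e he1
      rw [mem_inter] at hx
      exact ⟨x, mem_inter.2 ⟨hx.1, mem_union_left _ hx.2⟩⟩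
    · obtain ⟨x, hx⟩ := hT₂' e (mem_sdiff.2 ⟨he, he1⟩)
      rw [mem_inter] at hx
      exact ⟨x, mem_inter.2 ⟨hx.1, mem_union_right _ hx.2⟩⟩

lemma complete_one {r s N : ℕ} (hr : 1 ≤ r) (hN : N < (s + 1) * r)
    (S : Finset (Finset (Fin N))) (hS : ∀ e ∈ S, e.card = r) (hSk : S.card ≤ s + 1) :
    ∃ T : Finset (Fin N), T.card ≤ s ∧ IsTransversal S T := by
  classical
  have hne : ∀ e ∈ S, e.Nonempty := fun e he => by
    rw [← card_pos, hS e he]; omega
  rcases Nat.lt_or_ge s S.card with hlt | hge
  · -- `S` has exactly `s+1` members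
    have hcard : S.card = s + 1 := by omega
    have hex : ∃ A ∈ S, ∃ B ∈ S, A ≠ B ∧ ¬ Disjoint A B := by
      by_contra hc
      push Not at hc
      have h1 : (S.biUnion id).card = ∑ e ∈ S, e.card :=
        card_biUnion (fun A hA B hB hAB => hc A hA B hB hAB)
      rw [sum_congr rfl hS, sum_const, hcard, smul_eq_mul] at h1
      have h2 := card_le_univ (S.biUnion id)
      rw [h1, Fintype.card_fin] at h2
      exact absurd hN (not_lt.2 h2)
    obtain ⟨A, hA, B, hB, hAB, hd⟩ := hex
    rw [not_disjoint_iff] at hd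
    obtain ⟨x, hxA, hxB⟩ := hd
    apply extend S {A, B} hne {x}
    · intro e he
      simp only [mem_insert, mem_singleton] at he
      rcases he with rfl | rfl
      · exact ⟨x, by simp [hxA]⟩
      · exact ⟨x, by simp [hxB]⟩
    · have h3 : ({A, B} : Finset (Finset (Fin N))) ⊆ S := by
        intro e he
        simp only [mem_insert, mem_singleton] at he
        rcases he with rfl | rfl <;> assumption
      have h4 := card_le_card h3
      rw [card_pair hAB] at h4
      rw [card_sdiff_of_subset h3, card_pair hAB, card_singleton]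
      omega
  · obtain ⟨T, hT, hT2⟩ := sel S hne
    exact ⟨T, by omega, hT2⟩

lemma complete_two {r s N : ℕ} (hr : 1 ≤ r) (hN : N < (s + 1) * r + (r + 1) / 2)
    (S : Finset (Finset (Fin N))) (hS : ∀ e ∈ S, e.card = r) (hSk : S.card ≤ s + 1 + 2) :
    ∃ T : Finset (Fin N), T.card ≤ s + 1 ∧ IsTransversal S T := by
  classical
  have hne : ∀ e ∈ S, e.Nonempty := fun e he => by
    rw [← card_pos, hS e he]; omega
  have hN' : N < (s + 1 + 1) * r := by
    have h1 : (s + 1 + 1) * r = (s + 1) * r + r := by ring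
    omega
  rcases Nat.lt_or_ge S.card (s + 3) with hlt | hge
  · exact complete_one hr hN' S hS (by omega)
  have hcard : S.card = s + 3 := by omega
  by_contra hno
  -- no vertex lies in three edges
  have hthree : ∀ A ∈ S, ∀ B ∈ S, ∀ C ∈ S, A ≠ B → A ≠ C → B ≠ C → ∀ x, x ∈ A → x ∈ B →
      x ∉ C := by
    intro A hA B hB C hC hAB hAC hBC x hxA hxB hxC
    apply hno
    apply extend S {A, B, C} hne {x}
    · intro e he
      simp only [mem_insert, mem_singleton] at he
      rcases he with rfl | rfl | rfl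
      · exact ⟨x, by simp [hxA]⟩
      · exact ⟨x, by simp [hxB]⟩
      · exact ⟨x, by simp [hxC]⟩
    · have h3 : ({A, B, C} : Finset (Finset (Fin N))) ⊆ S := by
        intro e he
        simp only [mem_insert, mem_singleton] at he
        rcases he with rfl | rfl | rfl <;> assumption
      have h4 : ({A, B, C} : Finset (Finset (Fin N))).card = 3 := by
        rw [card_eq_three]; exact ⟨A, B, C, hAB, hAC, hBC, rfl⟩
      rw [card_sdiff_of_subset h3, h4, card_singleton]
      omega
  -- no two disjoint pairs of intersecting edges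
  have htwo : ∀ A ∈ S, ∀ B ∈ S, ∀ C ∈ S, ∀ D ∈ S, A ≠ B → A ≠ C → A ≠ D → B ≠ C → B ≠ D →
      C ≠ D → ¬ Disjoint A B → Disjoint C D := by
    intro A hA B hB C hC D hD hAB hAC hAD hBC hBD hCD h1
    by_contra h2
    rw [not_disjoint_iff] at h1 h2
    obtain ⟨x, hxA, hxB⟩ := h1
    obtain ⟨y, hyC, hyD⟩ := h2
    apply hno
    apply extend S {A, B, C, D} hne {x, y}
    · intro e he
      simp only [mem_insert, mem_singleton] at he
      rcases he with rfl | rfl | rfl | rfl
      · exact ⟨x, by simp [hxA]⟩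
      · exact ⟨x, by simp [hxB]⟩
      · exact ⟨y, by simp [hyC]⟩
      · exact ⟨y, by simp [hyD]⟩
    · have h3 : ({A, B, C, D} : Finset (Finset (Fin N))) ⊆ S := by
        intro e he
        simp only [mem_insert, mem_singleton] at he
        rcases he with rfl | rfl | rfl | rfl <;> assumption
      have h4 : ({A, B, C, D} : Finset (Finset (Fin N))).card = 4 := by
        rw [card_insert_of_notMem, card_insert_of_notMem, card_pair hCD]
        · simp [hBC, hBD]
        · simp [hAB, hAC, hAD]
      have h5 : ({x, y} : Finset (Fin N)).card ≤ 2 := card_le_two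
      have h6 := card_le_card h3
      rw [h4] at h6
      rw [card_sdiff_of_subset h3, h4]
      omega
  -- there is an intersecting pair
  have hex : ∃ A ∈ S, ∃ B ∈ S, A ≠ B ∧ ¬ Disjoint A B := by
    by_contra hc
    push Not at hc
    have h1 : (S.biUnion id).card = ∑ e ∈ S, e.card :=
      card_biUnion (fun A hA B hB hAB => hc A hA B hB hAB)
    rw [sum_congr rfl hS, sum_const, hcard, smul_eq_mul] at h1
    have h2 := card_le_univ (S.biUnion id)
    rw [h1, Fintype.card_fin] at h2
    have h3 : (s + 3) * r = (s + 1 + 1) * r + r := by ring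
    omega
  obtain ⟨A, hA, B, hB, hAB, hd⟩ := hex
  -- the rest
  set R := S \ {A, B} with hR
  have hABS : ({A, B} : Finset (Finset (Fin N))) ⊆ S := by
    intro e he
    simp only [mem_insert, mem_singleton] at he
    rcases he with rfl | rfl <;> assumption
  have hRcard : R.card = s + 1 := by
    rw [hR, card_sdiff_of_subset hABS, card_pair hAB]; omega
  have hRmem : ∀ C, C ∈ R ↔ C ∈ S ∧ C ≠ A ∧ C ≠ B := by
    intro C; rw [hR, mem_sdiff]; simp [not_or]
  have hRdisj : ∀ C ∈ R, ∀ D ∈ R, C ≠ D → Disjoint C D := by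
    intro C hC D hD hCD
    rw [hRmem] at hC hD
    exact htwo A hA B hB C hC.1 D hD.1 hAB hC.2.1.symm hD.2.1.symm hC.2.2.symm hD.2.2.symm hCD hd
  set U := R.biUnion id with hU
  have hUcard : U.card = (s + 1) * r := by
    have h1 : (R.biUnion id).card = ∑ e ∈ R, e.card :=
      card_biUnion (fun C hC D hD hCD => hRdisj C hC D hD hCD)
    rw [hU, h1]
    rw [sum_congr rfl (fun C hC => hS C ((hRmem C).1 hC).1), sum_const, hRcard, smul_eq_mul]
  -- it suffices to find an edge with many points outside `U`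
  have hfin : ∀ X : Finset (Fin N), (r + 1) / 2 ≤ (X \ U).card → False := by
    intro X hX
    have h1 : (U ∪ (X \ U)).card = U.card + (X \ U).card :=
      card_union_of_disjoint disjoint_sdiff
    have h2 := card_le_univ (U ∪ (X \ U))
    rw [h1, hUcard, Fintype.card_fin] at h2
    omega
  have hsub : ∀ X ∈ S, (∀ C ∈ R, Disjoint X C) → False := by
    intro X hX hXC
    apply hfin X
    have h1 : Disjoint X U := by
      rw [hU, disjoint_biUnion_right]
      exact hXC
    rw [sdiff_eq_self_of_disjoint h1, hS X hX]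
    omega
  -- `A` and `B` both meet some member of `R`
  have hAC : ∃ C ∈ R, ¬ Disjoint A C := by
    by_contra hc; push Not at hc; exact hsub A hA hc
  have hBC : ∃ C ∈ R, ¬ Disjoint B C := by
    by_contra hc; push Not at hc; exact hsub B hB hc
  obtain ⟨C, hC, hAC⟩ := hAC
  obtain ⟨D, hD, hBD⟩ := hBC
  have hC' := (hRmem C).1 hC
  have hD' := (hRmem D).1 hD
  have hCD : C = D := by
    by_contra hne'
    exact hBD (htwo A hA C hC'.1 B hB D hD'.1 hC'.2.1.symm hAB hD'.2.1.symm hC'.2.2 hne'
      hD'.2.2.symm hAC)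
  subst hCD
  -- `A` and `B` are disjoint from the other members of `R`
  have hAo : ∀ E ∈ R, E ≠ C → Disjoint A E := by
    intro E hE hEC
    have hE' := (hRmem E).1 hE
    exact htwo B hB C hC'.1 A hA E hE'.1 hC'.2.2.symm hAB.symm hE'.2.2.symm hC'.2.1 hEC.symm
      hE'.2.1.symm hBD
  have hBo : ∀ E ∈ R, E ≠ C → Disjoint B E := by
    intro E hE hEC
    have hE' := (hRmem E).1 hE
    exact htwo A hA C hC'.1 B hB E hE'.1 hC'.2.1.symm hAB hE'.2.1.symm hC'.2.2 hEC.symm
      hE'.2.2.symm hAC
  have hX : ∀ X ∈ S, (∀ E ∈ R, E ≠ C → Disjoint X E) → (X \ U).card = r - (X ∩ C).card := by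
    intro X hX hXo
    have h1 : X \ U = X \ (X ∩ C) := by
      ext x
      simp only [mem_sdiff, mem_inter, hU, mem_biUnion, id]
      constructor
      · rintro ⟨h1, h2⟩
        exact ⟨h1, fun h3 => h2 ⟨C, hC, h3.2⟩⟩
      · rintro ⟨h1, h2⟩
        refine ⟨h1, ?_⟩
        rintro ⟨E, hE, hxE⟩
        by_cases hEC : E = C
        · subst hEC; exact h2 ⟨h1, hxE⟩
        · exact (disjoint_left.1 (hXo E hE hEC) h1) hxE
    rw [h1, card_sdiff_of_subset inter_subset_left, hS X hX]
  have h1 := hX A hA hAo
  have h2 := hX B hB hBo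
  have h3 : (A ∩ C).card + (B ∩ C).card ≤ r := by
    have hdis : Disjoint (A ∩ C) (B ∩ C) := by
      rw [disjoint_left]
      intro x hx hx2
      rw [mem_inter] at hx hx2
      exact hthree A hA B hB C hC'.1 hAB hC'.2.1.symm hC'.2.2.symm x hx.1 hx2.1 hx.2
    rw [← card_union_of_disjoint hdis, ← hS C hC'.1]
    exact card_le_card (union_subset inter_subset_right inter_subset_right)
  have h4 : (A ∩ C).card ≤ r := by rw [← hS A hA]; exact card_le_card inter_subset_left
  have h5 : (B ∩ C).card ≤ r := by rw [← hS B hB]; exact card_le_card inter_subset_left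
  rcases Nat.lt_or_ge (A \ U).card ((r + 1) / 2) with h6 | h6
  · exact hfin B (by omega)
  · exact hfin A h6

/-! ### The case `s = 1` -/

/-- one step: if every intersection of a member of `P` (a nonempty family of sets) with an edge is
again in a family with all members of size at least `m`, then a set `I ∈ P` of size `n` yields a
transversal of size `n - m + 1` -/
lemma sub_transversal {V : Type} [DecidableEq V] (H : Finset (Finset V)) (I : Finset V) (m : ℕ)
    (hm : 1 ≤ m) (h : ∀ e ∈ H, m ≤ (I ∩ e).card) (hI : m ≤ I.card) :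
    ∃ T : Finset V, T.card ≤ I.card - m + 1 ∧ IsTransversal H T := by
  obtain ⟨T, hTI, hT⟩ := exists_subset_card_eq (s := I) (n := I.card - m + 1) (by omega)
  refine ⟨T, hT.le, ?_⟩
  intro e he
  by_contra hemp
  rw [not_nonempty_iff_eq_empty] at hemp
  have h2 : Disjoint T (I ∩ e) := by
    rw [disjoint_left]
    intro x hx hx2
    rw [mem_inter] at hx2
    have : x ∈ e ∩ T := mem_inter.2 ⟨hx2.2, hx⟩
    rw [hemp] at this
    simp at this
  have h3 : (T ∪ (I ∩ e)).card ≤ I.card :=
    card_le_card (union_subset hTI inter_subset_left)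
  rw [card_union_of_disjoint h2] at h3
  have := h e he
  omega

lemma good_s_one (r q : ℕ) (hr : 1 ≤ r) (hq : 1 ≤ q) : Good r (q + 1) 1 ((r - 1) / q + 1) := by
  classical
  intro V _ _ H hr' hk
  rcases H.eq_empty_or_nonempty with rfl | hne
  · exact ⟨∅, by simp, by intro e he; simp at he⟩
  -- any subfamily of at most `q + 1` edges has a common point
  have hcommon : ∀ S ⊆ H, S.Nonempty → S.card ≤ q + 1 → ∃ x, ∀ e ∈ S, x ∈ e := by
    intro S hS hSne hSk
    obtain ⟨T, hT, hT2⟩ := hk S hS hSk
    obtain ⟨e₀, he₀⟩ := hSne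
    obtain ⟨x, hx⟩ := hT2 e₀ he₀
    rw [mem_inter] at hx
    refine ⟨x, fun e he => ?_⟩
    obtain ⟨y, hy⟩ := hT2 e he
    rw [mem_inter] at hy
    have h1 : x = y := card_le_one.1 hT x hx.2 y hy.2
    rw [h1]; exact hy.1
  by_contra hno
  push Not at hno
  set u := (r - 1) / q + 1 with hu
  have hub : r + q - 1 < (u + 1) * q := by
    have h1 := Nat.div_add_mod (r - 1) q
    have h2 := Nat.mod_lt (r - 1) hq
    have h3 : (u + 1) * q = q * ((r - 1) / q) + 2 * q := by rw [hu]; ring
    omega
  -- intersections of `i + 1` edges of size at most `r - i * u`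
  have key : ∀ i : ℕ, i < q → ∃ S : Finset (Finset V), ∃ I : Finset V, S ⊆ H ∧ S.Nonempty ∧
      S.card ≤ i + 1 ∧ (∀ x, x ∈ I ↔ ∀ e ∈ S, x ∈ e) ∧ I.card + i * u ≤ r := by
    intro i
    induction i with
    | zero =>
      intro _
      obtain ⟨e, he⟩ := hne
      exact ⟨{e}, e, by simpa using he, by simp, by simp, by simp, by simp [hr' e he]⟩
    | succ i ih =>
      intro hi
      obtain ⟨S, I, hS, hSne, hSc, hI, hIc⟩ := ih (by omega)
      have hmeet : ∀ e ∈ H, (I ∩ e).Nonempty := by
        intro e he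
        obtain ⟨x, hx⟩ := hcommon (insert e S) (insert_subset he hS) (insert_nonempty _ _) (by
          have := card_insert_le e S
          omega)
        exact ⟨x, mem_inter.2 ⟨(hI x).2 (fun e' he' => hx e' (mem_insert_of_mem he')),
          hx e (mem_insert_self _ _)⟩⟩
      obtain ⟨e, he, hmin⟩ := exists_min_image H (fun e => (I ∩ e).card) hne
      have hpos : 1 ≤ (I ∩ e).card := (hmeet e he).card_pos
      have hle : (I ∩ e).card ≤ I.card := card_le_card inter_subset_left
      obtain ⟨T, hT, hT2⟩ := sub_transversal H I (I ∩ e).card hpos hmin hle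
      have hu2 : u < T.card := by
        by_contra hc
        push Not at hc
        exact hno T hc hT2
      refine ⟨insert e S, I ∩ e, insert_subset he hS, insert_nonempty _ _, ?_, ?_, ?_⟩
      · have := card_insert_le e S
        omega
      · intro x
        rw [mem_inter, hI x]
        constructor
        · rintro ⟨h1, h2⟩ e' he'
          rw [mem_insert] at he'
          rcases he' with rfl | he'
          · exact h2
          · exact h1 e' he'
        · intro h
          exact ⟨fun e' he' => h e' (mem_insert_of_mem he'), h e (mem_insert_self _ _)⟩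
      · have h1 : (i + 1) * u = i * u + u := by ring
        omega
  obtain ⟨S, I, hS, hSne, hSc, hI, hIc⟩ := key (q - 1) (by omega)
  have hT2 : IsTransversal H I := by
    intro e he
    obtain ⟨x, hx⟩ := hcommon (insert e S) (insert_subset he hS) (insert_nonempty _ _) (by
      have := card_insert_le e S
      omega)
    exact ⟨x, mem_inter.2 ⟨hx e (mem_insert_self _ _),
      (hI x).2 (fun e' he' => hx e' (mem_insert_of_mem he'))⟩⟩
  have hu2 : u < I.card := by
    by_contra hc
    push Not at hc
    exact hno I hc hT2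
  obtain ⟨q', rfl⟩ : ∃ q', q = q' + 1 := ⟨q - 1, by omega⟩
  rw [Nat.add_sub_cancel] at hIc
  have h1 : (u + 1) * (q' + 1) = q' * u + u + q' + 1 := by ring
  omega

lemma complete_s_one {r q N : ℕ} (hN : q * N < (q + 1) * r)
    (S : Finset (Finset (Fin N))) (hS : ∀ e ∈ S, e.card = r) (hSk : S.card ≤ q + 1)
    (hNr : r ≤ N) : ∃ T : Finset (Fin N), T.card ≤ 1 ∧ IsTransversal S T := by
  classical
  rcases Nat.eq_zero_or_pos N with hN0 | hN0
  · exact ⟨∅, by simp, fun e he => by
      have h1 := hS e he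
      subst hN0
      have : r = 0 := by omega
      subst this
      omega⟩
  have hex : ∃ x, ∀ e ∈ S, x ∈ e := by
    by_contra hc
    push Not at hc
    have h1 : (univ : Finset (Fin N)) ⊆ S.biUnion (fun e => univ \ e) := by
      intro x _
      obtain ⟨e, he, hx⟩ := hc x
      exact mem_biUnion.2 ⟨e, he, mem_sdiff.2 ⟨mem_univ _, hx⟩⟩
    have h2 := card_le_card h1
    have h3 : (S.biUnion (fun e => univ \ e)).card ≤ S.card * (N - r) := by
      apply card_biUnion_le_card_mul
      intro e he
      rw [card_sdiff_of_subset (subset_univ e), card_univ, Fintype.card_fin, hS e he]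
    have h4 : S.card * (N - r) ≤ (q + 1) * (N - r) := Nat.mul_le_mul_right _ hSk
    rw [card_univ, Fintype.card_fin] at h2
    obtain ⟨d, rfl⟩ : ∃ d, N = r + d := ⟨N - r, by omega⟩
    rw [Nat.add_sub_cancel_left] at h3 h4
    have h5 : q * (r + d) = q * r + q * d := by ring
    have h6 : (q + 1) * r = q * r + r := by ring
    have h7 : (q + 1) * d = q * d + d := by ring
    omega
  obtain ⟨x, hx⟩ := hex
  exact ⟨{x}, by simp, fun e he => ⟨x, by simp [hx e he]⟩⟩

/-- For all `r ≥ 1` and `s ≥ 1`: `f_r(s+1,s) = rs` and `f_r(s+2,s) = (s-1)r + ⌈r/2⌉`; moreover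
`f_r(k,1) = ⌊(r-1)/(k-1)⌋ + 1` for all `k ≥ 2`, and `f_r(k+1,s+1) ≤ r + f_r(k,s)` always. -/
theorem result :
    (∀ r s : ℕ, 1 ≤ r → 1 ≤ s →
      IsLeast {f | Good r (s + 1) s f} (r * s) ∧
      IsLeast {f | Good r (s + 2) s f} ((s - 1) * r + (r + 1) / 2)) ∧
    (∀ r k : ℕ, 1 ≤ r → 2 ≤ k → IsLeast {f | Good r k 1 f} ((r - 1) / (k - 1) + 1)) ∧
    (∀ r k s f : ℕ, Good r k s f → Good r (k + 1) (s + 1) (r + f)) := by
  refine ⟨?_, ?_, good_step⟩
  · intro r s hr hs
    obtain ⟨s, rfl⟩ : ∃ t, s = t + 1 := ⟨s - 1, by omega⟩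
    refine ⟨⟨good_one r (s + 1), ?_⟩, ⟨?_, ?_⟩⟩
    · intro f hf
      by_contra hlt
      push Not at hlt
      refine not_good_of (N := r * (s + 1) + r - 1) hr (by omega) ?_ hf
      intro S hS hSk
      refine complete_one hr ?_ S hS hSk
      have : (s + 1 + 1) * r = r * (s + 1) + r := by ring
      omega
    · simpa using good_two r s
    · intro f hf
      by_contra hlt
      push Not at hlt
      rw [Nat.add_sub_cancel] at hlt
      refine not_good_of (N := (s + 1) * r + (r + 1) / 2 - 1) hr ?_ ?_ hf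
      · have : (s + 1) * r = s * r + r := by ring
        omega
      intro S hS hSk
      refine complete_two hr ?_ S hS hSk
      have : 1 ≤ (s + 1) * r := by nlinarith
      omega
  · intro r k hr hk
    obtain ⟨q, rfl⟩ : ∃ q, k = q + 1 := ⟨k - 1, by omega⟩
    rw [Nat.add_sub_cancel]
    refine ⟨good_s_one r q hr (by omega), ?_⟩
    intro f hf
    by_contra hlt
    push Not at hlt
    have hfle : f ≤ (r - 1) / q := by omega
    refine not_good_of (N := r + f) hr (by omega) ?_ hf
    intro S hS hSk
    refine complete_s_one (q := q) ?_ S hS hSk (by omega)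
    have h1 : q * f ≤ r - 1 := by
      calc q * f ≤ q * ((r - 1) / q) := Nat.mul_le_mul_left _ hfle
        _ ≤ r - 1 := Nat.mul_div_le _ _
    have h2 : q * (r + f) = q * r + q * f := by ring
    have h3 : (q + 1) * r = q * r + r := by ring
    omega

end Pool.Agent.Results.MP_a8cb64_co.NearDiagonal
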